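import Pool.Agent.PFE.StmtsE1
import Pool.Agent.PFD.D1.Key

/-!
# Squad PFE, row PRJ: the orthogonal projection
-/

noncomputable section

namespace Pool.Agent.PFE.H40

open Pool.Agent.PFC.B1 (FS Split)

/-- PRJ -/
theorem prj (hcuf : CufStmt) : PrjStmt := by
  intro K A X S J Ω Ω' C _ _ _ _ _ _ _ _ _ _ _ _ y l χ D L F E
  obtain ⟨_, _, c, hlam, _, _, hsy⟩ := hcuf K A X S J Ω Ω' C y l χ D L F E
  let pr : A →ₗ[K] C := ∑ p, ((D.d.lam).comp (LinearMap.mulLeft K (E.j (c.b' p)))).smulRight (c.b p)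
  have hpr : ∀ a, pr a = ∑ p, D.d.lam (E.j (c.b' p) * a) • c.b p := by
    intro a
    show (∑ p, ((D.d.lam).comp (LinearMap.mulLeft K (E.j (c.b' p)))).smulRight (c.b p)) a = _
    rw [LinearMap.sum_apply]
    rfl
  have key : ∀ a x, c.lam (pr a * x) = D.d.lam (a * E.j x) := by
    intro a x
    rw [hpr, Finset.sum_mul, map_sum, D.ds a (E.j x)]
    conv_rhs => rw [← c.h2 x]
    rw [map_sum, Finset.sum_mul, map_sum]
    apply Finset.sum_congr rfl
    intro p _
    rw [smul_mul_assoc, map_smul, map_smul, smul_mul_assoc, map_smul, smul_eq_mul, smul_eq_mul,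
      hsy x (c.b p), mul_comm]
  refine ⟨pr, ?_, ?_, ?_, ?_⟩
  · intro a
    apply Pool.Agent.PFD.FS.ext c
    intro x
    rw [key, ← map_mul, hlam]
  · intro b a
    apply Pool.Agent.PFD.FS.ext c
    intro x
    rw [key, mul_assoc b (pr a) x, hsy b (pr a * x), mul_assoc (pr a) x b, key, map_mul E.j,
      mul_assoc (E.j b) a (E.j x), D.ds (E.j b) (a * E.j x), mul_assoc a (E.j x) (E.j b)]
  · intro a b
    apply Pool.Agent.PFD.FS.ext c
    intro x
    rw [key, mul_assoc (pr a) b x, key, map_mul E.j, mul_assoc]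
  · intro a
    have h := key a 1
    rw [mul_one, map_one, mul_one, hlam] at h
    exact h

end Pool.Agent.PFE.H40
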