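import Pool.Agent.PFE.StmtsE2b
import Pool.Agent.PFD.StmtsD3

/-!
Row TPR of squad PFE (helper40): the dimension formula over `F` (assembly of part E2).
-/

open scoped BigOperators TensorProduct

noncomputable section

namespace Pool.Agent.PFE.H40

open MulOpposite
open Pool.Agent.PFE
open Pool.Agent.PFC.B1 (FS Split BiM Sep)
open Pool.Agent.PFD (RF Og)
open Pool.Agent.PFD.D2
open Pool.Agent.PFD.D2b (wrp FPl FrR WFS)

/-- the homogeneous units of the local algebra -/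
theorem hun {K A X S : Type} [CommRing K] [Ring A] [Algebra K A] [Group X] [Fintype X] [Ring S]
    [Algebra K S] {y : A} {l : ℕ} {χ : X →* K} (L : LS K A X S y l χ) (x : X) {n n' : A}
    (h1 : n * n' = 1) (h2 : n' * n = 1) (h3 : y * n = χ x • (n * y)) :
    ∃ g g' : S, L.c x g = g ∧ g * g' = 1 ∧ g' * g = 1 := by
  have hn : n ∈ Nx y χ x := h3
  have hn' : n' ∈ Nx y χ x⁻¹ := by
    change y * n' = χ x⁻¹ • (n' * y)
    have e1 : n' * (y * n) * n' = n' * y := by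
      rw [mul_assoc, mul_assoc, h1, mul_one]
    have e2 : n' * (y * n) * n' = χ x • (y * n') := by
      rw [h3, mul_smul_comm, smul_mul_assoc, ← mul_assoc, h2, one_mul]
    rw [← e1, e2, smul_smul, ← map_mul, inv_mul_cancel, map_one, one_smul]
  have key : ∀ (z : X) (a : A) (ha : a ∈ Nx y χ z), z = 1 → a = 1 → L.p z ⟨a, ha⟩ = 1 := by
    intro z a ha hz hA
    subst hz hA
    exact L.one
  refine ⟨L.p x ⟨n, hn⟩, L.p x⁻¹ ⟨n', hn'⟩, L.pc x _, ?_, ?_⟩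
  · rw [L.mul]
    exact key _ _ _ (mul_inv_cancel x) h1
  · rw [L.mul]
    exact key _ _ _ (inv_mul_cancel x) h2

/-- an element which commutes with `y` and with `W` commutes with `Γ0` -/
theorem comG {F Γ0 W A : Type} [CommRing F] [CommRing Γ0] [Algebra F Γ0] [CommGroup W] [Fintype W]
    [Ring A] [Algebra F A] {l : ℕ} (G : GY F Γ0 W l) (j : Γ0 →ₐ[F] A) {a : A}
    (h1 : j G.y * a = a * j G.y) (h2 : ∀ w, j (G.om w) * a = a * j (G.om w)) (γ : Γ0) :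
    j γ * a = a * j γ := by
  have hp : ∀ k : ℕ, j (G.y ^ k) * a = a * j (G.y ^ k) := by
    intro k
    rw [map_pow]
    exact (show Commute (j G.y ^ k) a from (show Commute (j G.y) a from h1).pow_left k)
  rw [← G.ex γ, map_sum, Finset.sum_mul, Finset.mul_sum]
  refine Finset.sum_congr rfl fun k _ => ?_
  rw [map_sum, Finset.sum_mul, Finset.mul_sum]
  refine Finset.sum_congr rfl fun w _ => ?_
  rw [map_smul, map_mul, smul_mul_assoc, mul_smul_comm, mul_assoc, h2, ← mul_assoc, hp, mul_assoc]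

/-- the dimension formula over the base ring `R` -/
theorem tprR (gex : GexStmt) (lye : LyeStmt) (lze : LzeStmt) (zoy : ZoyStmt)
    (cnr : Pool.Agent.PFD.D4.CnrStmt) (cnk : Pool.Agent.PFD.D4.CnkStmt) (fsy : FsyStmt)
    (ydr : YdrStmt) (ygr : YgrStmt) (lse : LseStmt) (nxo : NxoStmt) (lsf : LsfStmt)
    (sfr : SfrStmt) (wse : WseStmt) (zsy : ZsyStmt) (tsv : TsvStmt) (k1n : K1nStmt)
    (k1u : K1uStmt) (s1y : S1yStmt) (s1f : S1fStmt) (bs1 : Bs1Stmt) (hul : HulStmt)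
    (byd : BydStmt) (yky : YkyStmt) (bls : BlsStmt) (tpe : TpeStmt)
    (R F Γ0 W A N K Ω Ω' X S : Type) [CommRing R] [IsDomain R] [IsPrincipalIdealRing R]
    [CharZero R] [Field F] [IsAlgClosed F] [CommRing Γ0] [Algebra F Γ0]
    [FiniteDimensional F Γ0] [CommGroup W] [Fintype W] [Ring A] [Algebra F A]
    [FiniteDimensional F A] [Group X] [Fintype X] [Fintype N] [Fintype K] [Fintype Ω]
    [Fintype Ω'] [MulAction (W × W) Ω] [MulAction (W × W) Ω'] [Ring S] [Algebra F S] (ℓ : ℕ)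
    [Fact ℓ.Prime] (c : Cdv R F) (τ : F →* R) (hτ : ∀ a, c.κ (τ a) = a)
    (G : GY F Γ0 W ℓ) (χ : X →* F) (fl : FLv A N K Ω Ω' G χ)
    (L : LS F A X S (fl.j G.y) ℓ χ) (hχ : ∀ x, χ x ^ (ℓ - 1) = 1) (hχ1 : ∀ x, χ x = 1 → x = 1) :
    Module.finrank F (Subalgebra.center F A) =
      Module.finrank F (Subalgebra.center F S) +
        (ℓ - 1) / Fintype.card X * Module.finrank F (Subalgebra.center F L.toGS.S1) := by
  classical
  have hl2 : 2 ≤ ℓ := (Fact.out : ℓ.Prime).two_le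
  have hl1 : 1 ≤ ℓ := by omega
  obtain ⟨Γ, iΓ1, iΓ2, iΓ3, iΓ4, GR, f, hfy, hfw⟩ := gex R F Γ0 W c ℓ G hl1
  -- the character over `R`
  set χR : X →* R := τ.comp χ with hχR
  have hκ : ∀ x, c.κ (χR x) = χ x := fun x => hτ _
  have hχRl : ∀ x, χR x ^ (ℓ - 1) = 1 := by
    intro x
    change τ (χ x) ^ (ℓ - 1) = 1
    rw [← map_pow, hχ, map_one]
  have hχRu : ∀ x, x ≠ 1 → IsUnit (1 - χR x) := by
    intro x hx
    apply c.loc
    rw [map_sub, map_one, hκ]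
    intro h
    exact hx (hχ1 x (sub_eq_zero.1 h).symm)
  -- the lift
  obtain ⟨A1, iA1, iA2, iA3, iA4, Ω1, Ω1', iO1, iO2, iM1, iM2, ⟨ly⟩⟩ :=
    lye R F Γ Γ0 W A X N K Ω Ω' c ℓ GR G f χR χ fl hl2 hfy hfw hκ hχRl hχRu
  obtain ⟨lz⟩ := lze R F Γ Γ0 W A A1 X N K Ω Ω' Ω1 Ω1' c ℓ GR G f χR χ fl ly hl1
  -- the centre of `A`
  have hA := cnr R F A A1 c lz.fb
    (zoy R F Γ Γ0 W A A1 X N Ω1 Ω1' c ℓ GR f χR fl.j fl.pr lz hl2 hχRl hχRu)
  -- the frame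
  obtain ⟨d, hd⟩ := fsy R F Γ Γ0 W A A1 X N Ω1 Ω1' c ℓ GR f χR fl.j fl.pr lz hl1
  obtain ⟨D, hDd, hDdeg, hDg, hDh, hDg', hDh'⟩ :=
    ydr R F Γ Γ0 W A A1 X N (N × (Fin ℓ × W)) Ω1 Ω1' c ℓ GR f χR fl.j fl.pr lz d hd hl2 hχRl
      hχRu
  have hDl : D.d.lam = lz.tA := by rw [hDd, hd]
  obtain ⟨Y, hYom⟩ := ygr R F Γ Γ0 W A A1 X N (N × (Fin ℓ × W)) Ω1 Ω1' c ℓ GR f χR fl.j fl.pr lz
    D hDl hDdeg hDg hDh hDg' hDh'
  -- the local algebra over `R`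
  obtain ⟨SR, iS1, iS2, ⟨LR⟩⟩ := lse R A1 X (lz.j GR.y) ℓ χR hl1 D.yl hχRl
  have hqy : lz.fb.q (lz.j GR.y) = fl.j G.y := by rw [lz.cj, hfy]
  have hlift : ∀ x, ∀ a0 ∈ Nx (fl.j G.y) χ x, ∃ a ∈ Nx (lz.j GR.y) χR x, lz.fb.q a = a0 := by
    intro x a0 ha0
    have h := nxo R F Γ Γ0 W A A1 X Ω1 Ω1' c ℓ GR f χR χ fl.j fl.pr lz.toLY hl2 hκ hχRl hχRu x a0
    rw [hqy] at h
    exact h ha0
  obtain ⟨fs, hfs1, hfs2⟩ := lsf R F A A1 X SR S c lz.fb (lz.j GR.y) (fl.j G.y) ℓ χR χ LR L hl1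
    D.yl hqy hκ hχRl hlift
  obtain ⟨E, hEdeg, hEb, hEb', hEom, hErho⟩ := wse R A1 X SR (N × (Fin ℓ × W)) Ω1 Ω1' W
    (lz.j GR.y) ℓ χR D Y LR
  obtain ⟨iS3, iS4⟩ := sfr R SR Ω1 E.f
  -- the centre of `S`
  have hS := cnr R F S SR c fs (zsy R F SR S X Ω1 W c LR.toGS E fs)
  -- the homogeneous units
  have hU0 : ∀ x, ∃ g g' : S, L.c x g = g ∧ g * g' = 1 ∧ g' * g = 1 := by
    intro x
    obtain ⟨n, n', h1, h2, h3⟩ := fl.uni x
    exact hun L x h1 h2 h3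
  have hUR := hul R F SR S X c LR.toGS L.toGS fs hfs2 hU0
  -- the part of degree `1`
  obtain ⟨T, hT⟩ := tsv Ω1 W E.fo
  have hloc : ∀ a : A, fl.j G.y * a = a * fl.j G.y →
      (∀ w, lz.fb.q (Y.om w) * a = a * lz.fb.q (Y.om w)) → IsUnit a ∨ IsNilpotent a := by
    intro a h1 h2
    apply fl.loc
    intro γ
    refine comG G fl.j h1 (fun w => ?_) γ
    have h3 := h2 w
    rw [hYom, lz.cj, hfw] at h3
    exact h3
  have hk1 := k1n R F A A1 X SR S (N × (Fin ℓ × W)) Ω1 Ω1' W c lz.fb (lz.j GR.y) (fl.j G.y) ℓ χR χ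
    D Y LR L fs hqy hfs1 hloc E hEdeg hEb hEb' T hT
  have hk2 := k1u R F SR S X Ω1 W c LR.toGS L.toGS E fs hfs2 hU0 T hT hk1
  have hs1 := s1y R F SR S X Ω1 W c LR.toGS L.toGS E fs hfs2 T hT hk2
  obtain ⟨iF1, iF2, f1, hf1⟩ := s1f R F SR S X c LR.toGS L.toGS fs hfs2
  have hS1 := cnr R F L.toGS.S1 LR.toGS.S1 c f1 (by
    intro z hz
    obtain ⟨b, hb1, hb2⟩ := hs1 z hz
    refine ⟨b, hb1, Subtype.ext ?_⟩
    rw [hf1, hb2])
  -- base change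
  let KK : Type := AlgebraicClosure (FractionRing R)
  have iK0 : CharZero (FractionRing R) :=
    charZero_of_injective_algebraMap (IsFractionRing.injective R (FractionRing R))
  have iK1 : CharZero KK :=
    charZero_of_injective_algebraMap (algebraMap (FractionRing R) KK).injective
  have hinj : Function.Injective (algebraMap R KK) := by
    rw [IsScalarTower.algebraMap_eq R (FractionRing R) KK]
    exact (algebraMap (FractionRing R) KK).injective.comp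
      (IsFractionRing.injective R (FractionRing R))
  have iK2 : FaithfulSMul R KK := (faithfulSMul_iff_algebraMap_injective R KK).2 hinj
  set χK : X →* KK := (algebraMap R KK).toMonoidHom.comp χR with hχK
  have hχKR : ∀ x, χK x = algebraMap R KK (χR x) := fun x => rfl
  have hAK := cnk R KK A1
  have hSK := cnk R KK SR
  obtain ⟨D', hD'⟩ := byd R KK A1 X (N × (Fin ℓ × W)) Ω1 Ω1' (lz.j GR.y) ℓ χR χK D hχKR
  have hunit : IsUnit (D'.RT 1) := by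
    rw [hD', Y.rr]
    have e1 : (1 : KK) ⊗ₜ[R] ((Fintype.card W : R) • Y.rho) =
        (Fintype.card W : KK) • ((1 : KK) ⊗ₜ[R] Y.rho) := by
      rw [TensorProduct.tmul_smul, ← algebraMap_smul KK (Fintype.card W : R), map_natCast]
    rw [e1]
    have h0 : (Fintype.card W : KK) ≠ 0 := Nat.cast_ne_zero.2 Fintype.card_ne_zero
    have h1 : IsUnit ((1 : KK) ⊗ₜ[R] Y.rho) :=
      Y.ru.map (Algebra.TensorProduct.includeRight : A1 →ₐ[R] KK ⊗[R] A1)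
    have h2 : (Fintype.card W : KK) • ((1 : KK) ⊗ₜ[R] Y.rho) =
        algebraMap KK (KK ⊗[R] A1) (Fintype.card W : KK) * ((1 : KK) ⊗ₜ[R] Y.rho) :=
      Algebra.smul_def _ _
    rw [h2]
    exact ((isUnit_iff_ne_zero.2 h0).map (algebraMap KK (KK ⊗[R] A1))).mul h1
  obtain ⟨Ek, -⟩ := yky KK (KK ⊗[R] A1) X (N × (Fin ℓ × W)) Ω1 Ω1' ((1 : KK) ⊗ₜ[R] lz.j GR.y) ℓ χK
    D' hunit
  obtain ⟨L', hL'⟩ := bls R KK A1 X SR (lz.j GR.y) ℓ χR χK LR hχKR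
  have hB1 := bs1 R KK SR X LR.toGS L'.toGS hL'
  have hfin := tpe KK (KK ⊗[R] A1) X (KK ⊗[R] SR) (N × (Fin ℓ × W)) Ω1 Ω1'
    ((1 : KK) ⊗ₜ[R] lz.j GR.y) ℓ χK Ek L' (by
      intro x
      obtain ⟨g, g', h1, h2, h3⟩ := hUR x
      refine ⟨(1 : KK) ⊗ₜ[R] g, (1 : KK) ⊗ₜ[R] g', ?_, ?_, ?_⟩
      · rw [hL', h1]
      · rw [Algebra.TensorProduct.tmul_mul_tmul, h2, one_mul]
        rfl
      · rw [Algebra.TensorProduct.tmul_mul_tmul, h3, one_mul]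
        rfl)
  rw [hA, hS, hS1, ← hAK, ← hSK, ← hB1]
  exact hfin

/-- row TPR -/
theorem tpr (wit : Pool.Agent.PFD.D3.WitStmt) (gex : GexStmt) (lye : LyeStmt) (lze : LzeStmt)
    (zoy : ZoyStmt) (cnr : Pool.Agent.PFD.D4.CnrStmt) (cnk : Pool.Agent.PFD.D4.CnkStmt)
    (fsy : FsyStmt) (ydr : YdrStmt) (ygr : YgrStmt) (lse : LseStmt) (nxo : NxoStmt)
    (lsf : LsfStmt) (sfr : SfrStmt) (wse : WseStmt) (zsy : ZsyStmt) (tsv : TsvStmt)
    (k1n : K1nStmt) (k1u : K1uStmt) (s1y : S1yStmt) (s1f : S1fStmt) (bs1 : Bs1Stmt)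
    (hul : HulStmt) (byd : BydStmt) (yky : YkyStmt) (bls : BlsStmt) (tpe : TpeStmt) :
    TprStmt := by
  intro F Γ0 W A N K Ω Ω' X S _ _ _ _ _ _ _ _ _ _ _ _ _ _ _ _ _ _ _ _ ℓ _ _ G χ fl L hχ hχ1
  obtain ⟨c, ⟨o⟩⟩ := wit ℓ F
  have := o.dom
  have := o.pid
  have := o.ch0
  exact tprR gex lye lze zoy cnr cnk fsy ydr ygr lse nxo lsf sfr wse zsy tsv k1n k1u s1y s1f bs1
    hul byd yky bls tpe (WittVector ℓ F) F Γ0 W A N K Ω Ω' X S ℓ c o.τ o.τκ G χ fl L hχ hχ1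

end Pool.Agent.PFE.H40
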